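import Mathlib
import Pool.Agent.E8helper83.TPCat

/-!
# Question 1: the set of the limiting path and star densities is larger than the millipede hull

`SimpleGraph.copyCount T H` (Mathlib) is the number of the subgraphs of `T` isomorphic to `H`.
The caterpillars whose non-leaf vertices have the degrees `2, 2, 7, 7, 2, 2, 7, 7, ...` have a limiting
path density `3/38` and a limiting star density `35/152`. This point lies outside of the convex hull
`C` of `(0, 1)` and of the millipede points.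
-/

set_option autoImplicit false

open Finset SimpleGraph Filter Topology

namespace Pool.Agent.Results.MP_ed556a_co.NotMillipedeHullH83

/-- the Y-shaped tree on the vertices `0, ..., 4`, with the edges `01`, `02`, `03`, `34` -/
def yShape : SimpleGraph (Fin 5) := SimpleGraph.fromEdgeSet {s(0, 1), s(0, 2), s(0, 3), s(3, 4)}

/-- `P(T)`: the number of the subgraphs of `T` isomorphic to the path on 5 vertices -/
noncomputable def P {V : Type} [Fintype V] (T : SimpleGraph V) : ℕ :=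
  T.copyCount (SimpleGraph.pathGraph 5)

/-- `S(T)`: the number of the subgraphs of `T` isomorphic to the star `K_{1,4}` -/
noncomputable def S {V : Type} [Fintype V] (T : SimpleGraph V) : ℕ :=
  T.copyCount (SimpleGraph.starGraph (0 : Fin 5))

/-- `Y(T)`: the number of the subgraphs of `T` isomorphic to the Y-shaped tree -/
noncomputable def Y {V : Type} [Fintype V] (T : SimpleGraph V) : ℕ := T.copyCount yShape

/-- the 5-profile `(P, S, Y) / Z`, `Z = P + S + Y` -/
noncomputable def profile {V : Type} [Fintype V] (T : SimpleGraph V) : ℝ × ℝ × ℝ :=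
  ((P T : ℝ) / (P T + S T + Y T), (S T : ℝ) / (P T + S T + Y T), (Y T : ℝ) / (P T + S T + Y T))

/-- `Δ`: the limits of the 5-profiles of trees `T n` with `|T n| → ∞` -/
def Delta : Set (ℝ × ℝ × ℝ) :=
  {p | ∃ (V : ℕ → Type) (_ : ∀ n, Fintype (V n)) (T : ∀ n, SimpleGraph (V n)),
    (∀ n, (T n).IsTree) ∧ Tendsto (fun n => Fintype.card (V n)) atTop atTop ∧
      Tendsto (fun n => profile (T n)) atTop (𝓝 p)}

/-- the set of the pairs `(p₁, p₂)` (limiting path and star density) for `p ∈ Δ` -/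
def Pairs : Set (ℝ × ℝ) := {q | ∃ p ∈ Delta, q = (p.1, p.2.1)}

/-- the point `m_d` of the `d`-millipedes -/
noncomputable def mil (d : ℕ) : ℝ × ℝ :=
  (((d : ℝ) + 1) ^ 2 / (((d + 2).choose 4 : ℕ) + ((d : ℝ) + 1) ^ 3),
    (((d + 2).choose 4 : ℕ) : ℝ) / (((d + 2).choose 4 : ℕ) + ((d : ℝ) + 1) ^ 3))

/-- `C`: the convex hull of `(0, 1)` and of the points `m_d`, `d ≥ 0` -/
noncomputable def C : Set (ℝ × ℝ) := convexHull ℝ ({((0 : ℝ), (1 : ℝ))} ∪ Set.range mil)

/-! ### the point is outside of the hull -/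

theorem choose_four (a : ℕ) : 24 * (((a + 1).choose 4 : ℕ) : ℝ) = (a + 1) * a * (a - 1) * (a - 2) := by
  have h := Nat.descFactorial_eq_factorial_mul_choose (a + 1) 4
  have h2 : (Nat.factorial 4 : ℕ) = 24 := rfl
  rw [h2] at h
  have h3 : (((a + 1).descFactorial 4 : ℕ) : ℝ) = (a + 1) * a * (a - 1) * (a - 2) := by
    rcases Nat.lt_or_ge a 3 with h | h
    · interval_cases a <;> simp
    · obtain ⟨b, rfl⟩ := Nat.exists_eq_add_of_le h
      simp only [Nat.descFactorial]
      have e1 : (3 + b + 1 - 0 : ℕ) = b + 4 := by omega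
      have e2 : (3 + b + 1 - 1 : ℕ) = b + 3 := by omega
      have e3 : (3 + b + 1 - 2 : ℕ) = b + 2 := by omega
      have e4 : (3 + b + 1 - 3 : ℕ) = b + 1 := by omega
      rw [e1, e2, e3, e4]
      push_cast
      ring
  rw [h] at h3
  exact_mod_cast h3

theorem hull_sub : closure C ⊆ {q : ℝ × ℝ | 10 ≤ 52 * q.1 + 25 * q.2} := by
  have hclosed : IsClosed {q : ℝ × ℝ | 10 ≤ 52 * q.1 + 25 * q.2} :=
    isClosed_le continuous_const (by fun_prop)
  have hconv : Convex ℝ {q : ℝ × ℝ | 10 ≤ 52 * q.1 + 25 * q.2} := by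
    intro p hp q hq a b ha hb hab
    simp only [Set.mem_ofPred_eq, Prod.fst_add, Prod.snd_add, Prod.smul_fst, Prod.smul_snd,
      smul_eq_mul] at hp hq ⊢
    nlinarith
  refine closure_minimal (convexHull_min ?_ hconv) hclosed
  rintro q (hq | ⟨d, rfl⟩)
  · rw [Set.mem_singleton_iff] at hq
    rw [hq]
    simp only [Set.mem_ofPred_eq]
    norm_num
  · have h4 := choose_four (d + 1)
    simp only [Set.mem_ofPred_eq, mil]
    set c : ℝ := (((d + 2).choose 4 : ℕ) : ℝ) with hc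
    push_cast at h4
    have hd : (0 : ℝ) ≤ d := Nat.cast_nonneg d
    have hc0 : 0 ≤ c := Nat.cast_nonneg _
    have hpos : 0 < c + ((d : ℝ) + 1) ^ 3 := by positivity
    rw [← sub_nonneg]
    have e : 52 * (((d : ℝ) + 1) ^ 2 / (c + ((d : ℝ) + 1) ^ 3)) + 25 * (c / (c + ((d : ℝ) + 1) ^ 3)) - 10 =
        (52 * ((d : ℝ) + 1) ^ 2 + 25 * c - 10 * (c + ((d : ℝ) + 1) ^ 3)) / (c + ((d : ℝ) + 1) ^ 3) := by
      field_simp
    rw [e]
    apply div_nonneg _ hpos.le
    have key : 8 * (52 * ((d : ℝ) + 1) ^ 2 + 25 * c - 10 * (c + ((d : ℝ) + 1) ^ 3)) =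
        ((d : ℝ) + 1) * (5 * (d + 1) * (d - 8) ^ 2 + 6 * (d + 1) + 10) := by
      linear_combination 5 * h4
    have : 0 ≤ ((d : ℝ) + 1) * (5 * (d + 1) * (d - 8) ^ 2 + 6 * (d + 1) + 10) := by positivity
    linarith

theorem not_mem : ((3 / 38 : ℝ), (35 / 152 : ℝ)) ∉ closure C := by
  intro h
  have := hull_sub h
  simp only [Set.mem_ofPred_eq] at this
  norm_num at this

/-! ### the caterpillars -/

/-- degree minus one on the spine -/
def z (i : ℕ) : ℕ := if i = 0 then 0 else if i % 4 = 1 ∨ i % 4 = 2 then 1 else 6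

def y (k i : ℕ) : ℕ := if 4 * k + 5 ≤ i then 0 else z i

theorem z1 (n : ℕ) : z (4 * n + 1) = 1 := by
  unfold z
  rw [if_neg (by omega), if_pos (by omega)]

theorem z2 (n : ℕ) : z (4 * n + 2) = 1 := by
  unfold z
  rw [if_neg (by omega), if_pos (by omega)]

theorem z3 (n : ℕ) : z (4 * n + 3) = 6 := by
  unfold z
  rw [if_neg (by omega), if_neg (by omega)]

theorem z4 (n : ℕ) : z (4 * n + 4) = 6 := by
  unfold z
  rw [if_neg (by omega), if_neg (by omega)]

theorem y_eq (k i : ℕ) (h : i ≤ 4 * k + 4) : y k i = z i := by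
  unfold y
  rw [if_neg (by omega)]

theorem sumP (n : ℕ) : ∑ i ∈ range (4 * n + 3), (z i : ℤ) * z (i + 2) = 24 * n + 12 := by
  induction n with
  | zero => decide
  | succ n ih =>
    have e : 4 * (n + 1) + 3 = 4 * n + 3 + 1 + 1 + 1 + 1 := by ring
    rw [e, sum_range_succ, sum_range_succ, sum_range_succ, sum_range_succ, ih]
    have a1 : z (4 * n + 3 + 2) = 1 := z1 (n + 1)
    have a2 : z (4 * n + 3 + 1 + 2) = 1 := z2 (n + 1)
    have a3 : z (4 * n + 3 + 1 + 1) = 1 := z1 (n + 1)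
    have a4 : z (4 * n + 3 + 1 + 1 + 2) = 6 := z3 (n + 1)
    have a5 : z (4 * n + 3 + 1 + 1 + 1) = 1 := z2 (n + 1)
    have a6 : z (4 * n + 3 + 1 + 1 + 1 + 2) = 6 := z4 (n + 1)
    have a7 : z (4 * n + 3 + 1) = 6 := z4 n
    rw [a1, a2, a4, a6, a7, z3 n]
    push_cast
    ring

theorem sumY (n : ℕ) : ∑ i ∈ range (4 * n + 3), ((z i : ℤ) + z (i + 2)) * (z (i + 1) * (z (i + 1) - 1)) =
    420 * n + 210 := by
  induction n with
  | zero => decide
  | succ n ih =>
    have e : 4 * (n + 1) + 3 = 4 * n + 3 + 1 + 1 + 1 + 1 := by ring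
    rw [e, sum_range_succ, sum_range_succ, sum_range_succ, sum_range_succ, ih]
    have a1 : z (4 * n + 3 + 2) = 1 := z1 (n + 1)
    have a2 : z (4 * n + 3 + 1 + 2) = 1 := z2 (n + 1)
    have a3 : z (4 * n + 3 + 1 + 1) = 1 := z1 (n + 1)
    have a4 : z (4 * n + 3 + 1 + 1 + 2) = 6 := z3 (n + 1)
    have a5 : z (4 * n + 3 + 1 + 1 + 1) = 1 := z2 (n + 1)
    have a6 : z (4 * n + 3 + 1 + 1 + 1 + 2) = 6 := z4 (n + 1)
    have a7 : z (4 * n + 3 + 1) = 6 := z4 n
    have a8 : z (4 * n + 3 + 1 + 1 + 1 + 1) = 6 := z3 (n + 1)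
    rw [a1, a2, a4, a6, a7, z3 n]
    push_cast
    ring

theorem sumS (n : ℕ) : ∑ i ∈ range (4 * n + 4), (z (i + 1) + 1).choose 4 = 70 * n + 70 := by
  induction n with
  | zero => decide
  | succ n ih =>
    have e : 4 * (n + 1) + 4 = 4 * n + 4 + 1 + 1 + 1 + 1 := by ring
    rw [e, sum_range_succ, sum_range_succ, sum_range_succ, sum_range_succ, ih]
    have a1 : z (4 * n + 4 + 1) = 1 := z1 (n + 1)
    have a2 : z (4 * n + 4 + 1 + 1) = 1 := z2 (n + 1)
    have a3 : z (4 * n + 4 + 1 + 1 + 1) = 6 := z3 (n + 1)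
    have a4 : z (4 * n + 4 + 1 + 1 + 1 + 1) = 6 := z4 (n + 1)
    rw [a1, a2, a3, a4]
    have b1 : (1 + 1 : ℕ).choose 4 = 0 := rfl
    have b2 : (6 + 1 : ℕ).choose 4 = 35 := rfl
    rw [b1, b2]
    ring

/-- the tree `T_k` -/
abbrev tr (k : ℕ) : SimpleGraph (Pool.Agent.E8helper83.TP.CV (4 * k + 4) (y k)) :=
  Pool.Agent.E8helper83.TP.cat (4 * k + 4) (y k)

theorem yz0 (k : ℕ) : y k 0 = 0 := by simp [y, z]

theorem yend (k : ℕ) : y k (4 * k + 4 + 1) = 0 := by simp [y]

theorem ypos (k i : ℕ) (h1 : 1 ≤ i) (h2 : i ≤ 4 * k + 4) : 1 ≤ y k i := by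
  rw [y_eq k i h2]
  unfold z
  rw [if_neg (by omega)]
  split_ifs <;> norm_num

theorem P_tr (k : ℕ) : (P (tr k) : ℝ) = 24 * k + 12 := by
  have h := Pool.Agent.E8helper83.TP.cat_path (m := 4 * k + 4) (y := y k) (yz0 k) (yend k) (ypos k)
  have h2 : (P (tr k) : ℤ) = 24 * k + 12 := by
    unfold P
    rw [h, sum_range_succ, yend k, ← sumP k]
    simp only [Nat.cast_zero, mul_zero, add_zero]
    refine sum_congr rfl fun i hi => ?_
    rw [mem_range] at hi
    rw [y_eq k i (by omega), y_eq k (i + 2) (by omega)]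
  exact_mod_cast h2

theorem Y_tr (k : ℕ) : (Y (tr k) : ℝ) = 210 * k + 195 := by
  have h := Pool.Agent.E8helper83.TP.cat_y (m := 4 * k + 4) (y := y k) (yz0 k) (yend k) (ypos k)
  have h2 : 2 * (Y (tr k) : ℤ) = 2 * (210 * k + 195) := by
    have h' : 2 * (Y (tr k) : ℤ) = _ := h
    rw [h', sum_range_succ]
    have e1 : y k (4 * k + 3 + 2) = 0 := yend k
    rw [e1, y_eq k (4 * k + 3) (by omega), y_eq k (4 * k + 3 + 1) (by omega), z3 k]
    have a7 : z (4 * k + 3 + 1) = 6 := z4 k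
    rw [a7]
    have e2 : ∑ i ∈ range (4 * k + 3), ((y k i : ℤ) + y k (i + 2)) * (y k (i + 1) * (y k (i + 1) - 1)) =
        420 * k + 210 := by
      rw [← sumY k]
      refine sum_congr rfl fun i hi => ?_
      rw [mem_range] at hi
      rw [y_eq k i (by omega), y_eq k (i + 2) (by omega), y_eq k (i + 1) (by omega)]
    rw [e2]
    push_cast
    ring
  have h3 : (Y (tr k) : ℤ) = 210 * k + 195 := by linarith
  exact_mod_cast h3

theorem S_tr (k : ℕ) : (S (tr k) : ℝ) = 70 * k + 70 := by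
  have h := Pool.Agent.E8helper83.TP.cat_star (m := 4 * k + 4) (y := y k) (yz0 k) (yend k) (ypos k)
  have h2 : S (tr k) = 70 * k + 70 := by
    unfold S
    rw [h, ← sumS k]
    refine sum_congr rfl fun i hi => ?_
    rw [mem_range] at hi
    rw [y_eq k (i + 1) (by omega)]
  exact_mod_cast h2

theorem lim (a b c d : ℝ) (hc : 0 < c) (hd : 0 < d) :
    Tendsto (fun n : ℕ => (a * n + b) / (c * n + d)) atTop (𝓝 (a / c)) := by
  have h1 : Tendsto (fun n : ℕ => c * (n : ℝ) + d) atTop atTop :=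
    tendsto_atTop_add_const_right _ _ (tendsto_natCast_atTop_atTop.const_mul_atTop hc)
  have h2 : Tendsto (fun n : ℕ => a / c + (b - a * d / c) / (c * (n : ℝ) + d)) atTop (𝓝 (a / c + 0)) :=
    tendsto_const_nhds.add (h1.const_div_atTop _)
  rw [add_zero] at h2
  refine h2.congr fun n => ?_
  have : 0 < c * (n : ℝ) + d := by positivity
  field_simp
  ring

theorem mem_pairs : ((3 / 38 : ℝ), (35 / 152 : ℝ)) ∈ Pairs := by
  refine ⟨(24 / 304, 70 / 304, 210 / 304), ⟨fun k => Pool.Agent.E8helper83.TP.CV (4 * k + 4) (y k),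
    fun k => inferInstance, fun k => tr k, fun k => Pool.Agent.E8helper83.TP.cat_isTree _ _, ?_, ?_⟩, ?_⟩
  · refine tendsto_atTop_mono (fun k => ?_) tendsto_id
    have := Pool.Agent.E8helper83.TP.card_CV_ge (m := 4 * k + 4) (y := y k)
    simp only [id]
    omega
  · unfold profile
    simp only [P_tr, S_tr, Y_tr]
    have hZ : ∀ k : ℕ, (24 * (k : ℝ) + 12 + (70 * k + 70) + (210 * k + 195)) = 304 * k + 277 := fun k => by ring
    simp only [hZ]
    exact (lim 24 12 304 277 (by norm_num) (by norm_num)).prodMk_nhds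
      ((lim 70 70 304 277 (by norm_num) (by norm_num)).prodMk_nhds
        (lim 210 195 304 277 (by norm_num) (by norm_num)))
  · norm_num

/-- Question 1, negative answer: `(3/38, 35/152)` is a pair of limiting path and star densities of
trees and does not lie in `C`, nor in its closure. In particular the set of these pairs is not
`C`. -/
theorem result : ((3 / 38 : ℝ), (35 / 152 : ℝ)) ∈ Pairs ∧ ((3 / 38 : ℝ), (35 / 152 : ℝ)) ∉ closure C ∧
    Pairs ≠ C :=
  ⟨mem_pairs, not_mem, fun h => not_mem (subset_closure (h ▸ mem_pairs))⟩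

end Pool.Agent.Results.MP_ed556a_co.NotMillipedeHullH83
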