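import Mathlib
import Pool.Agent.E8helper83.TPIneq
import Pool.Agent.E8helper83.TPCat

/-!
# Question 2: every tree satisfies `Y ≤ 9 S + P + 6`, and the constant `6` is best possible

`SimpleGraph.copyCount T H` (Mathlib) is the number of the subgraphs of `T` isomorphic to `H`.
-/

set_option autoImplicit false

open Finset SimpleGraph

namespace Pool.Agent.Results.MP_ed556a_co.SharpInequalityH83

/-- the Y-shaped tree on the vertices `0, ..., 4`, with the edges `01`, `02`, `03`, `34` -/
def yShape : SimpleGraph (Fin 5) := SimpleGraph.fromEdgeSet {s(0, 1), s(0, 2), s(0, 3), s(3, 4)}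

/-- `P(T)`: the number of the subgraphs of `T` isomorphic to the path on 5 vertices -/
noncomputable def P {V : Type} [Fintype V] (T : SimpleGraph V) : ℕ :=
  T.copyCount (SimpleGraph.pathGraph 5)

/-- `S(T)`: the number of the subgraphs of `T` isomorphic to the star `K_{1,4}` -/
noncomputable def S {V : Type} [Fintype V] (T : SimpleGraph V) : ℕ :=
  T.copyCount (SimpleGraph.starGraph (0 : Fin 5))

/-- `Y(T)`: the number of the subgraphs of `T` isomorphic to the Y-shaped tree -/
noncomputable def Y {V : Type} [Fintype V] (T : SimpleGraph V) : ℕ := T.copyCount yShape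

/-- the degrees minus one on the spine: `2, 3, 3, ..., 3, 2` between two leaves -/
def y (k i : ℕ) : ℕ := if i = 0 ∨ k + 5 ≤ i then 0 else if i = 1 ∨ i = k + 4 then 2 else 3

theorem y_mid (k i : ℕ) (h1 : 2 ≤ i) (h2 : i ≤ k + 3) : y k i = 3 := by
  unfold y
  rw [if_neg (by omega), if_neg (by omega)]

theorem y0 (k : ℕ) : y k 0 = 0 := by simp [y]
theorem y1 (k : ℕ) : y k 1 = 2 := by simp [y]
theorem yk4 (k : ℕ) : y k (k + 4) = 2 := by simp [y]
theorem yk5 (k : ℕ) : y k (k + 5) = 0 := by simp [y]

/-- Question 2. Every tree satisfies `Y ≤ 9 S + P + 6`; equality holds for arbitrarily large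
trees. -/
theorem result :
    (∀ (V : Type) [Fintype V] (T : SimpleGraph V), T.IsTree → Y T ≤ 9 * S T + P T + 6) ∧
    ∀ N : ℕ, ∃ (V : Type) (_ : Fintype V) (T : SimpleGraph V), T.IsTree ∧ N ≤ Fintype.card V ∧
      Y T = 9 * S T + P T + 6 := by
  classical
  refine ⟨fun V _ T hT => Pool.Agent.E8helper83.TP.ineq hT, fun N => ?_⟩
  set k := N with hk
  have h0 : y k 0 = 0 := y0 k
  have h1 : y k (k + 4 + 1) = 0 := yk5 k
  have hpos : ∀ i, 1 ≤ i → i ≤ k + 4 → 1 ≤ y k i := by
    intro i hi1 hi2
    unfold y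
    rw [if_neg (by omega)]
    split_ifs <;> norm_num
  refine ⟨Pool.Agent.E8helper83.TP.CV (k + 4) (y k), inferInstance,
    Pool.Agent.E8helper83.TP.cat (k + 4) (y k), Pool.Agent.E8helper83.TP.cat_isTree _ _, ?_, ?_⟩
  · have := Pool.Agent.E8helper83.TP.card_CV_ge (m := k + 4) (y := y k)
    omega
  · have hP := Pool.Agent.E8helper83.TP.cat_path (m := k + 4) (y := y k) h0 h1 hpos
    have hY := Pool.Agent.E8helper83.TP.cat_y (m := k + 4) (y := y k) h0 h1 hpos
    have hS := Pool.Agent.E8helper83.TP.cat_star (m := k + 4) (y := y k) h0 h1 hpos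
    have m1 : y k 2 = 3 := y_mid k 2 (by omega) (by omega)
    have m2 : y k 3 = 3 := y_mid k 3 (by omega) (by omega)
    have m3 : y k (k + 2) = 3 := y_mid k (k + 2) (by omega) (by omega)
    have m4 : y k (k + 3) = 3 := y_mid k (k + 3) (by omega) (by omega)
    have m5 : y k (k + 4) = 2 := yk4 k
    have m6 : y k (k + 5) = 0 := yk5 k
    have m7 : y k 1 = 2 := y1 k
    have eP : (P (Pool.Agent.E8helper83.TP.cat (k + 4) (y k)) : ℤ) = 9 * k + 12 := by
      unfold P
      rw [hP, sum_range_succ, sum_range_succ, sum_range_succ', sum_range_succ']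
      have hmid : ∑ i ∈ range k, (y k (i + 1 + 1) : ℤ) * y k (i + 1 + 1 + 2) = 9 * k := by
        rw [sum_congr rfl fun i hi => ?_, sum_const, card_range, nsmul_eq_mul, mul_comm]
        rw [mem_range] at hi
        rw [y_mid k (i + 1 + 1) (by omega) (by omega), y_mid k (i + 1 + 1 + 2) (by omega) (by omega)]
        norm_num
      rw [hmid]
      simp only [zero_add, Nat.reduceAdd]
      have e1 : k + 2 + 2 = k + 4 := by omega
      have e2 : k + 3 + 2 = k + 5 := by omega
      rw [e1, e2, m3, m4, m5, m6, m7, m2, h0, m1]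
      norm_num
      ring
    have eY : 2 * (Y (Pool.Agent.E8helper83.TP.cat (k + 4) (y k)) : ℤ) = 36 * k + 72 := by
      have hY' : 2 * (Y (Pool.Agent.E8helper83.TP.cat (k + 4) (y k)) : ℤ) = _ := hY
      rw [hY', sum_range_succ, sum_range_succ, sum_range_succ', sum_range_succ']
      have hmid : ∑ i ∈ range k, ((y k (i + 1 + 1) : ℤ) + y k (i + 1 + 1 + 2)) *
          (y k (i + 1 + 1 + 1) * (y k (i + 1 + 1 + 1) - 1)) = 36 * k := by
        rw [sum_congr rfl fun i hi => ?_, sum_const, card_range, nsmul_eq_mul, mul_comm]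
        rw [mem_range] at hi
        rw [y_mid k (i + 1 + 1) (by omega) (by omega), y_mid k (i + 1 + 1 + 2) (by omega) (by omega),
          y_mid k (i + 1 + 1 + 1) (by omega) (by omega)]
        norm_num
      rw [hmid]
      simp only [zero_add, Nat.reduceAdd]
      have e1 : k + 2 + 2 = k + 4 := by omega
      have e2 : k + 3 + 2 = k + 5 := by omega
      have e3 : k + 2 + 1 = k + 3 := by omega
      have e4 : k + 3 + 1 = k + 4 := by omega
      rw [e1, e2, e3, e4, m3, m4, m5, m6, m7, m2, h0, m1]
      norm_num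
      ring
    have eS : S (Pool.Agent.E8helper83.TP.cat (k + 4) (y k)) = k + 2 := by
      unfold S
      rw [hS, sum_range_succ, sum_range_succ, sum_range_succ', sum_range_succ']
      have hmid : ∑ i ∈ range k, (y k (i + 1 + 1 + 1) + 1).choose 4 = k := by
        rw [sum_congr rfl fun i hi => ?_, sum_const, card_range, smul_eq_mul, mul_one]
        rw [mem_range] at hi
        rw [y_mid k (i + 1 + 1 + 1) (by omega) (by omega)]
        rfl
      rw [hmid]
      simp only [zero_add, Nat.reduceAdd]
      have e3 : k + 2 + 1 = k + 3 := by omega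
      have e4 : k + 3 + 1 = k + 4 := by omega
      rw [e3, e4, m4, m5, m7, m1]
      rfl
    have eS' : (S (Pool.Agent.E8helper83.TP.cat (k + 4) (y k)) : ℤ) = k + 2 := by exact_mod_cast eS
    have : (Y (Pool.Agent.E8helper83.TP.cat (k + 4) (y k)) : ℤ) =
        9 * S (Pool.Agent.E8helper83.TP.cat (k + 4) (y k)) +
          P (Pool.Agent.E8helper83.TP.cat (k + 4) (y k)) + 6 := by
      rw [eS', eP]
      linarith
    exact_mod_cast this

end Pool.Agent.Results.MP_ed556a_co.SharpInequalityH83
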